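import Pool.Agent.Helper14.RM.Graph

set_option autoImplicit false

open MeasureTheory ProbabilityTheory Filter Topology
open scoped Pointwise

namespace Pool.Agent.Helper14.RM

section gen

theorem symGen_finite (k : ℕ) : (symGen k).Finite := by
  have : symGen k = Set.range (fun i : Fin k => FreeGroup.of i) ∪
      Set.range (fun i : Fin k => (FreeGroup.of i)⁻¹) := by
    ext t
    simp only [symGen, Set.mem_ofPred_eq, Set.mem_union, Set.mem_range]
    constructor
    · rintro ⟨i, h | h⟩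
      · exact Or.inl ⟨i, h.symm⟩
      · exact Or.inr ⟨i, h.symm⟩
    · rintro (⟨i, h⟩ | ⟨i, h⟩)
      · exact ⟨i, Or.inl h.symm⟩
      · exact ⟨i, Or.inr h.symm⟩
  rw [this]
  exact (Set.finite_range _).union (Set.finite_range _)

theorem symGen_inv (k : ℕ) : (symGen k)⁻¹ = symGen k := by
  ext t
  simp only [symGen, Set.mem_inv, Set.mem_ofPred_eq]
  constructor
  · rintro ⟨i, h | h⟩
    · exact ⟨i, Or.inr (by rw [← h, inv_inv])⟩
    · exact ⟨i, Or.inl (inv_injective h)⟩
  · rintro ⟨i, h | h⟩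
    · exact ⟨i, Or.inr (by rw [h])⟩
    · exact ⟨i, Or.inl (by rw [h, inv_inv])⟩

theorem symGen_nonempty (k : ℕ) [NeZero k] : (symGen k).Nonempty :=
  ⟨FreeGroup.of (0 : Fin k), 0, Or.inl rfl⟩

theorem symGen_pow_finite (k j : ℕ) : (symGen k ^ j).Finite := by
  induction j with
  | zero => rw [pow_zero]; exact Set.finite_one
  | succ j ih => rw [pow_succ]; exact ih.mul (symGen_finite k)

theorem symGen_pow_nonempty (k j : ℕ) [NeZero k] : (symGen k ^ j).Nonempty :=
  (symGen_nonempty k).pow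

theorem symGen_pow_inv_mem (k j : ℕ) {s : FreeGroup (Fin k)} (hs : s ∈ symGen k ^ j) :
    s⁻¹ ∈ symGen k ^ j := by
  rw [← Set.mem_inv, ← inv_pow, symGen_inv]
  exact hs

/-- A homomorphism which is constant on `T ^ j` (`j ≥ 1`) has finite image. -/
theorem finite_range_of_const {k j : ℕ} [NeZero k] (hj : 1 ≤ j) {G : Type*} [Group G]
    (ψ : FreeGroup (Fin k) →* G) (g : G) (h : ∀ s ∈ symGen k ^ j, ψ s = g) :
    Finite ψ.range := by
  obtain ⟨i, rfl⟩ : ∃ i, j = i + 1 := ⟨j - 1, by omega⟩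
  have h1 : ∀ x ∈ symGen k, ∀ y ∈ symGen k, ψ x = ψ y := by
    intro x hx y hy
    obtain ⟨w, hw⟩ := symGen_pow_nonempty k i
    have e1 : ψ (w * x) = g := h _ (by rw [pow_succ]; exact Set.mul_mem_mul hw hx)
    have e2 : ψ (w * y) = g := h _ (by rw [pow_succ]; exact Set.mul_mem_mul hw hy)
    rw [← e2, map_mul, map_mul] at e1
    exact mul_left_cancel e1
  let x0 : FreeGroup (Fin k) := FreeGroup.of (0 : Fin k)
  have hx0 : x0 ∈ symGen k := ⟨0, Or.inl rfl⟩
  have hx0' : x0⁻¹ ∈ symGen k := ⟨0, Or.inr rfl⟩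
  have hc : ψ x0 * ψ x0 = 1 := by
    have := h1 x0 hx0 x0⁻¹ hx0'
    rw [map_inv] at this
    nth_rewrite 2 [this]
    exact mul_inv_cancel _
  have hsub : ∀ w : FreeGroup (Fin k), ψ w = 1 ∨ ψ w = ψ x0 := by
    intro w
    induction w using FreeGroup.induction_on with
    | C1 => left; exact map_one ψ
    | of i => right; exact h1 _ ⟨i, Or.inl rfl⟩ _ hx0
    | inv_of i _ => right; exact h1 _ ⟨i, Or.inr rfl⟩ _ hx0
    | mul x y hx hy =>
      rw [map_mul]
      rcases hx with hx | hx <;> rcases hy with hy | hy <;> simp [hx, hy, hc]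
  have : (ψ.range : Set G) ⊆ {1, ψ x0} := by
    rintro _ ⟨w, rfl⟩
    rcases hsub w with h | h
    · left; exact h
    · right; exact h
  exact ((Set.toFinite {1, ψ x0}).subset this).to_subtype

end gen

section count

variable {Γ : FinGraph} {F : Type} [Group F] {S : Set F}

theorem labelling_finite (hS : S.Finite) : Finite (Labelling Γ S) := by
  have := Γ.finE
  have := hS.to_subtype
  let f : Labelling Γ S → (Γ.E → S) := fun a e => ⟨a.1 e, a.2.1 e⟩
  have hf : Function.Injective f := by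
    intro a b hab
    apply Subtype.ext
    funext e
    have := congrFun hab e
    exact congrArg Subtype.val this
  exact Finite.of_injective f hf

/-- change the label of `e` -/
noncomputable def upd (hSi : ∀ s ∈ S, s⁻¹ ∈ S) (a : Labelling Γ S) (e : Γ.E) (s : S) :
    Labelling Γ S := by
  classical
  exact ⟨fun x => if x = e then s.1 else if x = Γ.bar e then s.1⁻¹ else a.1 x, by
    constructor
    · intro x
      dsimp only
      split_ifs
      · exact s.2
      · exact hSi _ s.2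
      · exact a.2.1 x
    · intro x
      dsimp only
      by_cases h1 : x = e
      · subst h1
        rw [if_neg (Γ.bar_ne x), if_pos rfl, if_pos rfl]
      · by_cases h2 : x = Γ.bar e
        · subst h2
          rw [if_pos (Γ.bar_bar e), if_neg (Γ.bar_ne e), if_pos rfl, inv_inv]
        · have h3 : Γ.bar x ≠ e := fun h => h2 (by rw [← h, Γ.bar_bar])
          have h4 : Γ.bar x ≠ Γ.bar e := fun h => h1 (by
            rw [← Γ.bar_bar x, h, Γ.bar_bar])
          rw [if_neg h3, if_neg h4, if_neg h1, if_neg h2]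
          exact a.2.2 x⟩

theorem upd_self (hSi : ∀ s ∈ S, s⁻¹ ∈ S) (a : Labelling Γ S) (e : Γ.E) (s : S) :
    (upd hSi a e s).1 e = s.1 := by
  simp [upd]

theorem upd_of_ne (hSi : ∀ s ∈ S, s⁻¹ ∈ S) (a : Labelling Γ S) (e : Γ.E) (s : S) {x : Γ.E}
    (h1 : x ≠ e) (h2 : x ≠ Γ.bar e) :
    (upd hSi a e s).1 x = a.1 x := by
  simp [upd, h1, h2]

theorem upd_upd (hSi : ∀ s ∈ S, s⁻¹ ∈ S) (a : Labelling Γ S) (e : Γ.E) (s : S) :
    upd hSi (upd hSi a e s) e ⟨a.1 e, a.2.1 e⟩ = a := by
  apply Subtype.ext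
  funext x
  by_cases h1 : x = e
  · subst h1
    rw [upd_self]
  · by_cases h2 : x = Γ.bar e
    · subst h2
      rw [(upd hSi (upd hSi a e s) e ⟨a.1 e, a.2.1 e⟩).2.2 e, upd_self, a.2.2 e]
    · rw [upd_of_ne hSi _ _ _ h1 h2, upd_of_ne hSi _ _ _ h1 h2]

theorem nonempty_labelling (hS : S.Nonempty) (hSi : ∀ s ∈ S, s⁻¹ ∈ S) :
    Nonempty (Labelling Γ S) := by
  classical
  obtain ⟨s, hs⟩ := hS
  -- choose an orientation
  let r : Setoid Γ.E := ⟨fun x y => y = x ∨ y = Γ.bar x, by
    refine ⟨fun x => Or.inl rfl, ?_, ?_⟩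
    · rintro x y (rfl | rfl)
      · exact Or.inl rfl
      · exact Or.inr (Γ.bar_bar x).symm
    · rintro x y z (rfl | rfl) (rfl | rfl)
      · exact Or.inl rfl
      · exact Or.inr rfl
      · exact Or.inr rfl
      · exact Or.inl (Γ.bar_bar x)⟩
  let q : Γ.E → Γ.E := fun x => (Quotient.mk r x).out
  have hq : ∀ x, x = q x ∨ x = Γ.bar (q x) := fun x => Quotient.mk_out (s := r) x
  have hq' : ∀ x, q (Γ.bar x) = q x := by
    intro x
    show (Quotient.mk r (Γ.bar x)).out = (Quotient.mk r x).out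
    congr 1
    apply Quotient.sound
    exact Or.inr (Γ.bar_bar x).symm
  refine ⟨⟨fun x => if x = q x then s else s⁻¹, ?_, ?_⟩⟩
  · intro x
    dsimp only
    split_ifs
    · exact hs
    · exact hSi s hs
  · intro x
    dsimp only
    rw [hq']
    rcases hq x with h | h
    · rw [if_pos h, if_neg]
      intro h2
      exact Γ.bar_ne x (h2.trans h.symm)
    · have h1 : x ≠ q x := fun h2 => Γ.bar_ne (q x) (h.symm.trans h2)
      have h3 : Γ.bar x = q x := by
        conv_lhs => rw [h]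
        exact Γ.bar_bar _
      rw [if_neg h1, if_pos h3, inv_inv]

/-- the labellings for which `ψ` kills all words read along closed paths -/
def killSet (Γ : FinGraph) (S : Set F) {G : Type*} [Group G] (ψ : F →* G) :
    Set (Labelling Γ S) :=
  {a | ∀ (v : Γ.V) (l : List Γ.E), Γ.IsPath v l v → ψ ((l.map a.1).prod) = 1}

theorem count_le (hSf : S.Finite) (hSi : ∀ s ∈ S, s⁻¹ ∈ S) {G : Type*} [Group G] (ψ : F →* G)
    (hψ : ∀ g : G, ∃ s ∈ S, ψ s ≠ g) (hΓ : ∃ e, ¬ Γ.Bridge e) :
    Nat.card (Labelling Γ S) ≤ Nat.card S * Nat.card ((killSet Γ S ψ)ᶜ : Set (Labelling Γ S)) := by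
  classical
  have := labelling_finite (Γ := Γ) hSf
  have := hSf.to_subtype
  obtain ⟨e, he⟩ := hΓ
  simp only [FinGraph.Bridge, not_not] at he
  obtain ⟨l, hl, hl1, hl2⟩ := he
  have hclosed : Γ.IsPath (Γ.src e) (e :: l) (Γ.src e) := FinGraph.IsPath.cons _ _ _ hl
  have hchoose : ∀ a : Labelling Γ S, ∃ s : S, upd hSi a e s ∈ (killSet Γ S ψ)ᶜ := by
    intro a
    obtain ⟨s, hs, hs'⟩ := hψ (ψ ((l.map a.1).prod))⁻¹
    refine ⟨⟨s, hs⟩, ?_⟩
    intro hmem
    have h1 := hmem _ _ hclosed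
    apply hs'
    have h2 : l.map (upd hSi a e ⟨s, hs⟩).1 = l.map a.1 := by
      apply List.map_congr_left
      intro x hx
      apply upd_of_ne
      · rintro rfl; exact hl1 hx
      · rintro rfl; exact hl2 hx
    rw [List.map_cons, List.prod_cons, upd_self, map_mul, h2] at h1
    exact eq_inv_of_mul_eq_one_left h1
  choose σ hσ using hchoose
  let f : Labelling Γ S → S × ((killSet Γ S ψ)ᶜ : Set (Labelling Γ S)) :=
    fun a => (⟨a.1 e, a.2.1 e⟩, ⟨upd hSi a e (σ a), hσ a⟩)
  have hf : Function.Injective f := by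
    intro a b hab
    simp only [f, Prod.mk.injEq, Subtype.mk.injEq] at hab
    rw [← upd_upd hSi a e (σ a), ← upd_upd hSi b e (σ b), hab.2]
    congr 1
    exact Subtype.ext hab.1
  have := Nat.card_le_card_of_injective f hf
  rwa [Nat.card_prod] at this

theorem uniform_kill_le (hSf : S.Finite) (hSn : S.Nonempty) (hSi : ∀ s ∈ S, s⁻¹ ∈ S)
    {G : Type*} [Group G] (ψ : F →* G)
    (hψ : ∀ g : G, ∃ s ∈ S, ψ s ≠ g) (hΓ : ∃ e, ¬ Γ.Bridge e) :
    uniformOn (Set.univ : Set (Labelling Γ S)) (killSet Γ S ψ) ≤ 1 - (Nat.card S : ENNReal)⁻¹ := by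
  classical
  have := labelling_finite (Γ := Γ) hSf
  have := hSf.to_subtype
  have := hSn.to_subtype
  have := nonempty_labelling (Γ := Γ) hSn hSi
  have : MeasurableSingletonClass (Labelling Γ S) := ⟨fun _ => trivial⟩
  let _ := Fintype.ofFinite (Labelling Γ S)
  have hmeas : MeasurableSet (killSet Γ S ψ) := trivial
  have h1 := count_le (Γ := Γ) hSf hSi ψ hψ hΓ
  have h2 : (Nat.card S : ENNReal)⁻¹ ≤
      uniformOn (Set.univ : Set (Labelling Γ S)) ((killSet Γ S ψ)ᶜ) := by
    rw [uniformOn_univ, Measure.count_apply_finite _ (Set.toFinite _), ENNReal.le_div_iff_mul_le]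
    · rw [mul_comm, ← div_eq_mul_inv, ENNReal.div_le_iff_le_mul]
      · rw [mul_comm]
        have h3 : Nat.card ((killSet Γ S ψ)ᶜ : Set (Labelling Γ S)) =
            (Set.toFinite ((killSet Γ S ψ)ᶜ)).toFinset.card := by
          rw [Nat.card_coe_set_eq, Set.ncard_eq_toFinset_card]
        rw [h3, Nat.card_eq_fintype_card] at h1
        exact_mod_cast h1
      · left
        have : Nat.card S ≠ 0 := Nat.card_pos.ne'
        exact_mod_cast this
      · left; exact ENNReal.natCast_ne_top _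
    · left
      have : Fintype.card (Labelling Γ S) ≠ 0 := Fintype.card_ne_zero
      exact_mod_cast this
    · left; exact ENNReal.natCast_ne_top _
  have h3 : uniformOn (Set.univ : Set (Labelling Γ S)) (killSet Γ S ψ) =
      1 - uniformOn (Set.univ : Set (Labelling Γ S)) ((killSet Γ S ψ)ᶜ) := by
    rw [prob_compl_eq_one_sub hmeas, ENNReal.sub_sub_cancel ENNReal.one_ne_top prob_le_one]
  rw [h3]
  exact tsub_le_tsub_left h2 1

end count

section main

variable {Ω : ℕ → FinGraph} {F : Type} [Group F] {S : Set F}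

theorem measure_kill (hSf : S.Finite) (hSn : S.Nonempty) (hSi : ∀ s ∈ S, s⁻¹ ∈ S)
    {G : Type*} [Group G] (ψ : F →* G)
    (hψ : ∀ g : G, ∃ s ∈ S, ψ s ≠ g) (hΩ : ∀ᶠ n in atTop, ∃ e, ¬ (Ω n).Bridge e) :
    labMeasure Ω S {α | ∀ n, α n ∈ killSet (Ω n) S ψ} = 0 := by
  classical
  have := hSf.to_subtype
  have := hSn.to_subtype
  have : ∀ n, Finite (Labelling (Ω n) S) := fun n => labelling_finite hSf
  have : ∀ n, Nonempty (Labelling (Ω n) S) := fun n => nonempty_labelling hSn hSi
  obtain ⟨N, hN⟩ := eventually_atTop.1 hΩ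
  set θ : ENNReal := 1 - (Nat.card S : ENNReal)⁻¹ with hθ
  have hθ1 : θ < 1 := by
    rw [hθ]
    apply ENNReal.sub_lt_self ENNReal.one_ne_top one_ne_zero
    exact ENNReal.inv_ne_zero.2 (ENNReal.natCast_ne_top _)
  have hle : ∀ K : ℕ, labMeasure Ω S {α | ∀ n, α n ∈ killSet (Ω n) S ψ} ≤ θ ^ K := by
    intro K
    let s : Finset ℕ := Finset.Ico N (N + K)
    have h1 : {α : Labellings Ω S | ∀ n, α n ∈ killSet (Ω n) S ψ} ⊆
        Set.pi (s : Set ℕ) (fun n => killSet (Ω n) S ψ) := by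
      intro α hα n _
      exact hα n
    refine (measure_mono h1).trans ?_
    unfold labMeasure
    have hms : ∀ n ∈ s, MeasurableSet (killSet (Ω n) S ψ) :=
      fun n _ => MeasurableSpace.measurableSet_top
    rw [Measure.infinitePi_pi _ hms]
    calc ∏ n ∈ s, uniformOn (Set.univ : Set (Labelling (Ω n) S)) (killSet (Ω n) S ψ)
        ≤ ∏ _n ∈ s, θ := by
          apply Finset.prod_le_prod'
          intro n hn
          exact uniform_kill_le hSf hSn hSi ψ hψ (hN n (Finset.mem_Ico.1 hn).1)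
      _ = θ ^ K := by
          rw [Finset.prod_const]
          simp [s]
  have hlim : Tendsto (fun K : ℕ => θ ^ K) atTop (𝓝 0) :=
    ENNReal.tendsto_pow_atTop_nhds_zero_of_lt_one hθ1
  exact le_antisymm (ge_of_tendsto' hlim hle) zero_le

end main

theorem Admissible.eventually_not_bridge {d : ℕ} {Ω : ℕ → FinGraph} (h : Admissible d Ω) :
    ∀ᶠ n in atTop, ∃ e, ¬ (Ω n).Bridge e := by
  obtain ⟨c, hc, hch⟩ := h.cheeger
  filter_upwards [h.card_tendsto.eventually_gt_atTop (2 * (1 + d * ⌈c⁻¹⌉₊))] with n hn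
  exact FinGraph.exists_not_bridge (h.connected n) (h.degree_le n) hc (hch n) hn

theorem superRigid_of_countable {d k j : ℕ} [NeZero k] (hj : 1 ≤ j) {Ω : ℕ → FinGraph}
    (hΩ : Admissible d Ω) (G : Type*) [Group G] [Countable G] :
    SuperRigid Ω (symGen k ^ j) G := by
  intro φ
  -- countably many homomorphisms
  have : Countable (FreeGroup (Fin k) →* G) := by
    let f : (FreeGroup (Fin k) →* G) → (Fin k → G) := fun ψ i => ψ (FreeGroup.of i)
    have hf : Function.Injective f := by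
      intro ψ ψ' h
      apply FreeGroup.ext_hom
      intro i
      exact congrFun h i
    exact hf.countable
  let Bad : Set (FreeGroup (Fin k) →* G) := {ψ | ¬ Finite ψ.range}
  have hnull : ∀ ψ ∈ Bad, labMeasure Ω (symGen k ^ j)
      {α | ∀ n, α n ∈ killSet (Ω n) (symGen k ^ j) ψ} = 0 := by
    intro ψ hψ
    apply measure_kill (symGen_pow_finite k j) (symGen_pow_nonempty k j)
      (fun s hs => symGen_pow_inv_mem k j hs) ψ _ hΩ.eventually_not_bridge
    intro g
    by_contra hcon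
    push Not at hcon
    exact hψ (finite_range_of_const hj ψ g hcon)
  rw [ae_iff]
  refine measure_mono_null (t := ⋃ ψ ∈ Bad, {α | ∀ n, α n ∈ killSet (Ω n) (symGen k ^ j) ψ})
    ?_ ((measure_biUnion_null_iff (Set.to_countable Bad)).2 hnull)
  intro α hα
  simp only [Set.mem_ofPred_eq] at hα
  let ψ : FreeGroup (Fin k) →* G := (φ α).comp (QuotientGroup.mk' _)
  have hrange : ψ.range = (φ α).range := by
    rw [MonoidHom.range_comp, QuotientGroup.range_mk', MonoidHom.range_eq_map]
  simp only [Set.mem_iUnion]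
  refine ⟨ψ, ?_, ?_⟩
  · show ¬ Finite ψ.range
    rw [hrange]
    exact hα
  · intro n v l hl
    show φ α (QuotientGroup.mk' _ _) = 1
    have : QuotientGroup.mk' (Subgroup.normalClosure (relators α)) ((l.map (α n).1).prod) = 1 := by
      rw [QuotientGroup.mk'_apply, QuotientGroup.eq_one_iff]
      exact Subgroup.subset_normalClosure ⟨n, v, l, hl, rfl⟩
    rw [this, map_one]

end Pool.Agent.Helper14.RM
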