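import Mathlib

/-!
# Randomly labelled graph sequences and the groups they define

Definitions for the super-rigidity question.  Graphs are finite graphs in the sense of Serre:
loops and multiple edges are allowed, and every edge occurs with its two orientations.
-/

set_option autoImplicit false

open MeasureTheory ProbabilityTheory Filter Topology
open scoped Pointwise

namespace Pool.Agent.Helper14.RM

/-- A finite graph in the sense of Serre: vertices `V`, oriented edges `E`, the origin `src e` of
an oriented edge, and the fixed-point-free involution `bar` reversing the orientation (so the end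
point of `e` is `src (bar e)`). -/
structure FinGraph where
  V : Type
  E : Type
  finV : Finite V
  finE : Finite E
  src : E → V
  bar : E → E
  bar_bar : ∀ e, bar (bar e) = e
  bar_ne : ∀ e, bar e ≠ e

namespace FinGraph

variable (Γ : FinGraph)

/-- `Γ.IsPath u l v`: the list `l` of oriented edges is an edge path from `u` to `v`. -/
inductive IsPath : Γ.V → List Γ.E → Γ.V → Prop
  | nil (v : Γ.V) : IsPath v [] v
  | cons (e : Γ.E) (l : List Γ.E) (v : Γ.V) (h : IsPath (Γ.src (Γ.bar e)) l v) :
      IsPath (Γ.src e) (e :: l) v

/-- Any two vertices are joined by an edge path, and there is a vertex. -/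
def Connected : Prop := Nonempty Γ.V ∧ ∀ u v : Γ.V, ∃ l, Γ.IsPath u l v

/-- The edge-path distance. -/
noncomputable def dist (u v : Γ.V) : ℕ∞ :=
  ⨅ (l : List Γ.E) (_ : Γ.IsPath u l v), (l.length : ℕ∞)

/-- The diameter. -/
noncomputable def diam : ℕ∞ := ⨆ (u : Γ.V) (v : Γ.V), Γ.dist u v

/-- The girth: the least length of a nonempty closed edge path without backtracking
(`⊤` if there is none, i.e. for forests). -/
noncomputable def girth : ℕ∞ :=
  ⨅ (l : List Γ.E)
    (_ : l ≠ [] ∧ l.IsChain (fun e f => f ≠ Γ.bar e) ∧ ∃ v, Γ.IsPath v l v), (l.length : ℕ∞)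

/-- The edges leaving the vertex set `A`. -/
def boundary (A : Set Γ.V) : Set Γ.E := {e | Γ.src e ∈ A ∧ Γ.src (Γ.bar e) ∉ A}

end FinGraph

/-- The standing assumptions (a)-(d) on a sequence of finite connected graphs. -/
structure Admissible (d : ℕ) (Ω : ℕ → FinGraph) : Prop where
  connected : ∀ n, (Ω n).Connected
  /-- (a) degrees at most `d` -/
  degree_le : ∀ n (v : (Ω n).V), {e | (Ω n).src e = v}.ncard ≤ d
  /-- (b) dg-bounded -/
  dg_bounded : ∃ D : ℕ, 0 < D ∧ ∀ n, (Ω n).diam ≤ D * (Ω n).girth
  /-- (c) the girth tends to infinity -/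
  girth_tendsto : Tendsto (fun n => (Ω n).girth) atTop (𝓝 ⊤)
  /-- (d) expander: the number of vertices tends to infinity ... -/
  card_tendsto : Tendsto (fun n => Nat.card (Ω n).V) atTop atTop
  /-- ... and the Cheeger constants are bounded below by some `c > 0` -/
  cheeger : ∃ c : ℝ, 0 < c ∧ ∀ n (A : Set (Ω n).V), A.Nonempty →
    2 * A.ncard ≤ Nat.card (Ω n).V → c * A.ncard ≤ ((Ω n).boundary A).ncard

/-- The symmetric generating set `T` (of `2 k` elements) of the free group `F_k`. -/
def symGen (k : ℕ) : Set (FreeGroup (Fin k)) :=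
  {t | ∃ i : Fin k, t = FreeGroup.of i ∨ t = (FreeGroup.of i)⁻¹}

/-- The symmetric labellings of the oriented edges of `Γ` with values in `S`. -/
def Labelling (Γ : FinGraph) {F : Type} [Group F] (S : Set F) : Type :=
  {a : Γ.E → F // (∀ e, a e ∈ S) ∧ ∀ e, a (Γ.bar e) = (a e)⁻¹}

/-- The (finite) set of labellings carries the discrete sigma-algebra. -/
instance {Γ : FinGraph} {F : Type} [Group F] {S : Set F} : MeasurableSpace (Labelling Γ S) := ⊤

/-- The labellings of the whole sequence: one labelling of every graph. -/
abbrev Labellings (Ω : ℕ → FinGraph) {F : Type} [Group F] (S : Set F) : Type :=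
  ∀ n, Labelling (Ω n) S

/-- The product over `n` of the uniform probability measures on the labellings of `Ω n`. -/
noncomputable def labMeasure (Ω : ℕ → FinGraph) {F : Type} [Group F] (S : Set F) :
    Measure (Labellings Ω S) :=
  Measure.infinitePi (fun n => uniformOn (Set.univ : Set (Labelling (Ω n) S)))

/-- All words read along closed edge paths in the graphs `Ω n`. -/
def relators {Ω : ℕ → FinGraph} {F : Type} [Group F] {S : Set F} (α : Labellings Ω S) : Set F :=
  {w | ∃ (n : ℕ) (v : (Ω n).V) (l : List (Ω n).E), (Ω n).IsPath v l v ∧ w = (l.map (α n).1).prod}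

/-- The group `Γ_α`: the quotient of `F` by the normal closure of all words read along closed
edge paths. -/
abbrev MonsterGroup {Ω : ℕ → FinGraph} {F : Type} [Group F] {S : Set F} (α : Labellings Ω S) :
    Type :=
  F ⧸ Subgroup.normalClosure (relators α)

/-- Super-rigidity of the family `Γ_α` with respect to `G`: for every choice of homomorphisms
`φ_α : Γ_α → G` the image of `φ_α` is finite for almost every `α`. -/
def SuperRigid (Ω : ℕ → FinGraph) {F : Type} [Group F] (S : Set F) (G : Type*) [Group G] : Prop :=
  ∀ φ : (∀ α : Labellings Ω S, MonsterGroup α →* G),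
    ∀ᵐ α ∂(labMeasure Ω S), Finite (φ α).range

end Pool.Agent.Helper14.RM
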