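import Pool.Agent.Helper14.RM.Defs

set_option autoImplicit false

open MeasureTheory ProbabilityTheory Filter Topology
open scoped Pointwise

namespace Pool.Agent.Helper14.RM

namespace FinGraph

variable {Γ : FinGraph}

theorem IsPath.append {u v w : Γ.V} {l l' : List Γ.E} (h : Γ.IsPath u l v) (h' : Γ.IsPath v l' w) :
    Γ.IsPath u (l ++ l') w := by
  induction h with
  | nil => simpa using h'
  | cons e l v h ih => exact IsPath.cons e _ _ (ih h')

theorem isPath_nil_iff {u v : Γ.V} : Γ.IsPath u [] v ↔ u = v := by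
  constructor
  · intro h; cases h; rfl
  · rintro rfl; exact IsPath.nil _

theorem isPath_cons_iff {u v : Γ.V} {e : Γ.E} {l : List Γ.E} :
    Γ.IsPath u (e :: l) v ↔ u = Γ.src e ∧ Γ.IsPath (Γ.src (Γ.bar e)) l v := by
  constructor
  · intro h; cases h with
    | cons e l v h => exact ⟨rfl, h⟩
  · rintro ⟨rfl, h⟩; exact IsPath.cons _ _ _ h

theorem isPath_append_iff {u v : Γ.V} {l l' : List Γ.E} :
    Γ.IsPath u (l ++ l') v ↔ ∃ w, Γ.IsPath u l w ∧ Γ.IsPath w l' v := by
  constructor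
  · intro h
    induction l generalizing u with
    | nil => exact ⟨u, IsPath.nil _, by simpa using h⟩
    | cons e l ih =>
      rw [List.cons_append, isPath_cons_iff] at h
      obtain ⟨w, h1, h2⟩ := ih h.2
      exact ⟨w, isPath_cons_iff.2 ⟨h.1, h1⟩, h2⟩
  · rintro ⟨w, h1, h2⟩
    exact h1.append h2

variable (Γ) in
/-- Vertices reachable from the end point of `e` without using `e`. -/
def side (e : Γ.E) : Set Γ.V :=
  {y | ∃ l, Γ.IsPath (Γ.src (Γ.bar e)) l y ∧ e ∉ l ∧ Γ.bar e ∉ l}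

variable (Γ) in
/-- `e` is a bridge. -/
def Bridge (e : Γ.E) : Prop := Γ.src e ∉ Γ.side e

theorem tgt_mem_side (e : Γ.E) : Γ.src (Γ.bar e) ∈ Γ.side e :=
  ⟨[], IsPath.nil _, by simp, by simp⟩

theorem boundary_side_subset {e : Γ.E} (he : Γ.Bridge e) : Γ.boundary (Γ.side e) ⊆ {Γ.bar e} := by
  rintro f ⟨hf1, hf2⟩
  by_contra hne
  obtain ⟨l, hl, hl1, hl2⟩ := hf1
  by_cases hfe : f = e
  · subst hfe
    exact he ⟨l, hl, hl1, hl2⟩
  · apply hf2
    refine ⟨l ++ [f], hl.append ?_, ?_, ?_⟩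
    · exact IsPath.cons f [] _ (IsPath.nil _)
    · simp only [List.mem_append, List.mem_singleton, not_or]
      exact ⟨hl1, fun h => hfe h.symm⟩
    · simp only [List.mem_append, List.mem_singleton, not_or]
      exact ⟨hl2, fun h => hne h.symm⟩

/-- every vertex is `v` or on the side of an edge issuing from `v`. -/
theorem cover_of_connected (hc : Γ.Connected) (v y : Γ.V) :
    y = v ∨ ∃ f, Γ.src f = v ∧ y ∈ Γ.side f := by
  classical
  have hex : ∃ n, ∃ l : List Γ.E, l.length = n ∧ Γ.IsPath v l y := by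
    obtain ⟨l, hl⟩ := hc.2 v y
    exact ⟨_, l, rfl, hl⟩
  obtain ⟨l, hlen, hl⟩ := Nat.find_spec hex
  have hmin : ∀ l' : List Γ.E, Γ.IsPath v l' y → l.length ≤ l'.length := by
    intro l' hl'
    rw [hlen]
    exact Nat.find_min' hex ⟨l', rfl, hl'⟩
  cases l with
  | nil => left; exact (isPath_nil_iff.1 hl).symm
  | cons f l =>
    right
    rw [isPath_cons_iff] at hl
    refine ⟨f, hl.1.symm, l, hl.2, ?_, ?_⟩
    · intro hf
      obtain ⟨l1, l2, rfl⟩ := List.append_of_mem hf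
      obtain ⟨w, h1, h2⟩ := isPath_append_iff.1 hl.2
      have h3 := isPath_cons_iff.1 h2
      have := hmin (f :: l2) (isPath_cons_iff.2 ⟨hl.1, h3.2⟩)
      simp at this
      omega
    · intro hf
      obtain ⟨l1, l2, rfl⟩ := List.append_of_mem hf
      obtain ⟨w, h1, h2⟩ := isPath_append_iff.1 hl.2
      have h3 := isPath_cons_iff.1 h2
      rw [Γ.bar_bar, ← hl.1] at h3
      have := hmin l2 h3.2
      simp at this
      omega

/-- every vertex on the side of `e` is the end point of `e` or on the side of a further edge. -/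
theorem cover_side {e : Γ.E} {y : Γ.V} (hy : y ∈ Γ.side e) :
    y = Γ.src (Γ.bar e) ∨ ∃ f, Γ.src f = Γ.src (Γ.bar e) ∧ f ≠ e ∧ f ≠ Γ.bar e ∧ y ∈ Γ.side f := by
  classical
  have hex : ∃ n, ∃ l : List Γ.E, l.length = n ∧ Γ.IsPath (Γ.src (Γ.bar e)) l y ∧
      e ∉ l ∧ Γ.bar e ∉ l := by
    obtain ⟨l, hl⟩ := hy
    exact ⟨_, l, rfl, hl⟩
  obtain ⟨l, hlen, hl, he1, he2⟩ := Nat.find_spec hex
  have hmin : ∀ l' : List Γ.E, Γ.IsPath (Γ.src (Γ.bar e)) l' y → e ∉ l' → Γ.bar e ∉ l' →
      l.length ≤ l'.length := by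
    intro l' hl' h1 h2
    rw [hlen]
    exact Nat.find_min' hex ⟨l', rfl, hl', h1, h2⟩
  cases l with
  | nil => left; exact (isPath_nil_iff.1 hl).symm
  | cons f l =>
    right
    rw [isPath_cons_iff] at hl
    simp only [List.mem_cons, not_or] at he1 he2
    refine ⟨f, hl.1.symm, fun h => he1.1 h.symm, fun h => he2.1 h.symm, l, hl.2, ?_, ?_⟩
    · intro hf
      obtain ⟨l1, l2, rfl⟩ := List.append_of_mem hf
      obtain ⟨w, h1, h2⟩ := isPath_append_iff.1 hl.2
      have h3 := isPath_cons_iff.1 h2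
      have := hmin (f :: l2) (isPath_cons_iff.2 ⟨hl.1, h3.2⟩) (by
        simp only [List.mem_append, List.mem_cons, not_or] at he1 ⊢
        tauto) (by
        simp only [List.mem_append, List.mem_cons, not_or] at he2 ⊢
        tauto)
      simp at this
      omega
    · intro hf
      obtain ⟨l1, l2, rfl⟩ := List.append_of_mem hf
      obtain ⟨w, h1, h2⟩ := isPath_append_iff.1 hl.2
      have h3 := isPath_cons_iff.1 h2
      rw [Γ.bar_bar, ← hl.1] at h3
      have := hmin l2 h3.2 (by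
        simp only [List.mem_append, List.mem_cons, not_or] at he1 ⊢
        tauto) (by
        simp only [List.mem_append, List.mem_cons, not_or] at he2 ⊢
        tauto)
      simp at this
      omega

theorem side_subset {e f : Γ.E} (hf : Γ.Bridge f) (h : Γ.src f = Γ.src (Γ.bar e)) (hfe : f ≠ e)
    (hfe' : f ≠ Γ.bar e) : Γ.side f ⊆ Γ.side e := by
  rintro y ⟨l, hl, h1, h2⟩
  refine ⟨f :: l, isPath_cons_iff.2 ⟨h.symm, hl⟩, ?_, ?_⟩
  · intro hmem
    rcases List.mem_cons.1 hmem with h' | h'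
    · exact hfe h'.symm
    · obtain ⟨l1, l2, rfl⟩ := List.append_of_mem h'
      obtain ⟨w, h3, h4⟩ := isPath_append_iff.1 hl
      have h5 := isPath_cons_iff.1 h4
      simp only [List.mem_append, List.mem_cons, not_or] at h1 h2
      apply hf
      refine ⟨l1 ++ [e], h3.append (isPath_cons_iff.2 ⟨h5.1, ?_⟩), ?_, ?_⟩
      · rw [h]; exact IsPath.nil _
      · simp only [List.mem_append, List.mem_singleton, not_or]
        exact ⟨h1.1, hfe⟩
      · simp only [List.mem_append, List.mem_singleton, not_or]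
        refine ⟨h2.1, ?_⟩
        intro h6
        apply hfe'
        rw [← h6, Γ.bar_bar]
  · intro hmem
    rcases List.mem_cons.1 hmem with h' | h'
    · exact hfe' h'.symm
    · obtain ⟨l1, l2, rfl⟩ := List.append_of_mem h'
      obtain ⟨w, h3, h4⟩ := isPath_append_iff.1 hl
      have h5 := isPath_cons_iff.1 h4
      simp only [List.mem_append, List.mem_cons, not_or] at h1 h2
      apply hf
      refine ⟨l1, ?_, h1.1, h2.1⟩
      rw [h, ← h5.1]
      exact h3

theorem exists_not_bridge (hc : Γ.Connected) {d : ℕ}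
    (hd : ∀ v : Γ.V, {e | Γ.src e = v}.ncard ≤ d) {c : ℝ} (hc0 : 0 < c)
    (hch : ∀ A : Set Γ.V, A.Nonempty →
      2 * A.ncard ≤ Nat.card Γ.V → c * A.ncard ≤ (Γ.boundary A).ncard)
    (hN : 2 * (1 + d * ⌈c⁻¹⌉₊) < Nat.card Γ.V) :
    ∃ e, ¬ Γ.Bridge e := by
  classical
  haveI := Γ.finV
  haveI := Γ.finE
  by_contra hall
  push Not at hall
  -- light sides are small
  have hlight : ∀ e : Γ.E, 2 * (Γ.side e).ncard ≤ Nat.card Γ.V →
      (Γ.side e).ncard ≤ ⌈c⁻¹⌉₊ := by
    intro e he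
    have h1 := hch (Γ.side e) ⟨_, tgt_mem_side e⟩ he
    have h2 : ((Γ.boundary (Γ.side e)).ncard : ℝ) ≤ 1 := by
      have : (Γ.boundary (Γ.side e)).ncard ≤ ({Γ.bar e} : Set Γ.E).ncard :=
        Set.ncard_le_ncard (boundary_side_subset (hall e)) (Set.toFinite _)
      rw [Set.ncard_singleton] at this
      exact_mod_cast this
    have h3 : ((Γ.side e).ncard : ℝ) ≤ c⁻¹ := by
      rw [← one_div, le_div_iff₀ hc0]
      linarith
    exact_mod_cast h3.trans (Nat.le_ceil _)
  -- union bound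
  have hunion : ∀ (v : Γ.V) (P : Γ.E → Prop) (A : Set Γ.V),
      (∀ y ∈ A, y = v ∨ ∃ f, Γ.src f = v ∧ P f ∧ y ∈ Γ.side f) →
      (∀ f, Γ.src f = v → P f → 2 * (Γ.side f).ncard ≤ Nat.card Γ.V) →
      A.ncard ≤ 1 + d * ⌈c⁻¹⌉₊ := by
    intro v P A hA hP
    let T : Finset Γ.E := (Set.toFinite {e | Γ.src e = v ∧ P e}).toFinset
    have hsub : A ⊆ {v} ∪ ⋃ f ∈ T, Γ.side f := by
      intro y hy
      rcases hA y hy with h | ⟨f, hf1, hf2, hf3⟩
      · left; exact h
      · right
        simp only [Set.mem_iUnion]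
        exact ⟨f, by simp [T, hf1, hf2], hf3⟩
    have h1 : A.ncard ≤ ({v} ∪ ⋃ f ∈ T, Γ.side f : Set Γ.V).ncard :=
      Set.ncard_le_ncard hsub (Set.toFinite _)
    have h2 : ({v} ∪ ⋃ f ∈ T, Γ.side f : Set Γ.V).ncard ≤
        1 + (⋃ f ∈ T, Γ.side f : Set Γ.V).ncard := by
      refine (Set.ncard_union_le _ _).trans ?_
      rw [Set.ncard_singleton]
    have h3 : (⋃ f ∈ T, Γ.side f : Set Γ.V).ncard ≤ ∑ f ∈ T, (Γ.side f).ncard :=
      Finset.set_ncard_biUnion_le T _
    have h4 : ∑ f ∈ T, (Γ.side f).ncard ≤ T.card * ⌈c⁻¹⌉₊ := by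
      rw [← smul_eq_mul]
      apply Finset.sum_le_card_nsmul
      intro f hf
      simp only [T, Set.Finite.mem_toFinset, Set.mem_setOf_eq] at hf
      exact hlight f (hP f hf.1 hf.2)
    have h5 : T.card ≤ d := by
      refine le_trans ?_ (hd v)
      rw [← Set.ncard_coe_finset]
      apply Set.ncard_le_ncard _ (Set.toFinite _)
      intro f hf
      simp only [T, Set.Finite.coe_toFinset, Set.mem_setOf_eq] at hf
      exact hf.1
    have h6 := Nat.mul_le_mul_right ⌈c⁻¹⌉₊ h5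
    omega
  -- there is a heavy edge
  have hheavy : ∃ e : Γ.E, Nat.card Γ.V < 2 * (Γ.side e).ncard := by
    by_contra hno
    push Not at hno
    obtain ⟨v⟩ := hc.1
    have h1 := hunion v (fun _ => True) Set.univ (by
      intro y _
      rcases cover_of_connected hc v y with h | ⟨f, h1, h2⟩
      · exact Or.inl h
      · exact Or.inr ⟨f, h1, trivial, h2⟩) (fun f _ _ => hno f)
    rw [Set.ncard_univ] at h1
    omega
  -- a heavy edge with the smallest side
  have hex : ∃ n, ∃ e : Γ.E, (Γ.side e).ncard = n ∧ Nat.card Γ.V < 2 * (Γ.side e).ncard := by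
    obtain ⟨e, he⟩ := hheavy
    exact ⟨_, e, rfl, he⟩
  obtain ⟨e, hen, he⟩ := Nat.find_spec hex
  have hmin : ∀ f : Γ.E, Nat.card Γ.V < 2 * (Γ.side f).ncard →
      (Γ.side e).ncard ≤ (Γ.side f).ncard := by
    intro f hf
    rw [hen]
    exact Nat.find_min' hex ⟨f, rfl, hf⟩
  have key := hunion (Γ.src (Γ.bar e)) (fun f => f ≠ e ∧ f ≠ Γ.bar e) (Γ.side e) (by
    intro y hy
    rcases cover_side hy with h | ⟨f, h1, h2, h3, h4⟩
    · exact Or.inl h
    · exact Or.inr ⟨f, h1, ⟨h2, h3⟩, h4⟩) (by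
    intro f hf1 hf2
    by_contra hcon
    push Not at hcon
    have h1 := hmin f hcon
    have h2 : Γ.side f ⊂ Γ.side e := by
      refine ⟨side_subset (hall f) hf1 hf2.1 hf2.2, ?_⟩
      intro h3
      apply hall f
      rw [hf1]
      exact h3 (tgt_mem_side e)
    have h3 := Set.ncard_lt_ncard h2 (Set.toFinite _)
    omega)
  omega

end FinGraph

end Pool.Agent.Helper14.RM
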