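import Pool.Agent.Helper14.RM.Count

/-! Sanity check: the measure on labellings is a probability measure. -/

set_option autoImplicit false

open MeasureTheory ProbabilityTheory
open scoped Pointwise

namespace Pool.Agent.Helper14.RM

theorem isProbabilityMeasure_labMeasure (k j : ℕ) [NeZero k] (Ω : ℕ → FinGraph) :
    IsProbabilityMeasure (labMeasure Ω (symGen k ^ j)) := by
  have : ∀ n, Finite (Labelling (Ω n) (symGen k ^ j)) :=
    fun n => labelling_finite (symGen_pow_finite k j)
  have : ∀ n, Nonempty (Labelling (Ω n) (symGen k ^ j)) :=
    fun n => nonempty_labelling (symGen_pow_nonempty k j) (fun s hs => symGen_pow_inv_mem k j hs)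
  unfold labMeasure
  infer_instance

end Pool.Agent.Helper14.RM
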